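import Pool.Agent.H95.Alz

set_option autoImplicit false
open Pool.Agent.H95.AlzDefs

universe u

theorem Pool.Agent.Results.MP_be8317_an.Alzer.result
    (H : Type u) [NormedAddCommGroup H] [InnerProductSpace ℂ H] [CompleteSpace H] :
    Alzer (H →L[ℂ] H) :=
  Pool.Agent.H95.Alz.main
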